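import Pool.Agent.Y507.Coi.Stm

/-!
# The isoperimetric property in one dimension
-/

set_option autoImplicit false

open MeasureTheory Set
open scoped Matrix

namespace Pool.Agent.Y761.Coi

open Pool.Agent.W560.Coiso Pool.Agent.Y507.Coi

theorem thm : Pool.Agent.Y507.Coi.S_ISOB := by
  intro T q β hT hβc hβ0 hqc hqd _
  have hp := psi_gt
  obtain ⟨c, hc⟩ : ∃ c : ℝ, c = 1 + 2 * psi := ⟨_, rfl⟩
  have hc0 : 0 < c := by rw [hc]; linarith
  rw [← hc]
  have h2c : 0 < 2 / c := by positivity
  have d0 : ∀ t ∈ Ioo 0 T, HasDerivAt (fun t => q t 0)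
      (2 / c * (β true t - β false t)) t := by
    intro t ht
    have := hasDerivAt_pi.1 (hqd t ht) 0
    refine this.congr_deriv ?_
    simp only [Fintype.sum_bool, Pi.add_apply, Pi.smul_apply, smul_eq_mul, tb, if_true,
      Bool.false_eq_true, if_false, ← hc]
    ring
  have c0 : ContinuousOn (fun t => q t 0) (Icc 0 T) := continuousOn_pi.1 hqc 0
  have b0 := hβc true
  have b1 := hβc false
  set G : ℝ → ℝ := fun t => β true t + β false t with hG
  have hGc : ContinuousOn G (Icc 0 T) := by fun_prop
  set L := ∫ t in (0 : ℝ)..T, G t with hL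
  have hLs : ∫ t in (0 : ℝ)..T, ∑ j, β j t = L := by
    rw [hL]
    congr 1
    funext t
    rw [Fintype.sum_bool]
  have hz : ∀ s ∈ Icc 0 T, ∀ t ∈ Icc 0 T, q t 0 - q s 0 ≤ 2 / c * L := by
    have hmono : ∀ s t : ℝ, 0 ≤ s → s ≤ t → t ≤ T →
        q t 0 - q s 0 ≤ 2 / c * L ∧ q s 0 - q t 0 ≤ 2 / c * L := by
      intro s t hs hst ht
      have e1 := path_le (T := T) (F := fun t => q t 0) (F' := fun t => 2 / c * (β true t - β false t))
        (G := fun t => 2 / c * G t) c0 d0 (by fun_prop) (by fun_prop) (fun t ht => by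
          have h1 := hβ0 false t ht
          refine mul_le_mul_of_nonneg_left ?_ h2c.le
          simp only [hG]; linarith) hs hst ht
      have e2 := path_le (T := T) (F := fun t => -q t 0)
        (F' := fun t => -(2 / c * (β true t - β false t)))
        (G := fun t => 2 / c * G t) c0.neg (fun t ht => (d0 t ht).neg) (by fun_prop)
        (by fun_prop) (fun t ht => by
          have h0 := hβ0 true t ht
          rw [← mul_neg]
          refine mul_le_mul_of_nonneg_left ?_ h2c.le
          simp only [hG]; linarith) hs hst ht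
      have hint : ∀ {a b : ℝ}, 0 ≤ a → a ≤ b → b ≤ T → IntervalIntegrable G volume a b := by
        intro a b ha hab hb
        refine ContinuousOn.intervalIntegrable ?_
        rw [uIcc_of_le hab]
        exact hGc.mono (Icc_subset_Icc ha hb)
      have hnn : ∀ {a b : ℝ}, 0 ≤ a → a ≤ b → b ≤ T → 0 ≤ ∫ r in a..b, G r := by
        intro a b ha hab hb
        refine intervalIntegral.integral_nonneg hab fun r hr => ?_
        have hr' : r ∈ Icc 0 T := ⟨ha.trans hr.1, hr.2.trans hb⟩
        have h0 := hβ0 true r hr'; have h1 := hβ0 false r hr'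
        simp only [hG]; linarith
      have e3 : (∫ r in (0 : ℝ)..t, G r) + ∫ r in t..T, G r = L :=
        intervalIntegral.integral_add_adjacent_intervals (hint le_rfl (hs.trans hst) ht)
          (hint (hs.trans hst) ht le_rfl)
      have e4 := hnn (hs.trans hst) ht le_rfl
      have e5 := hnn le_rfl hs (hst.trans ht)
      rw [intervalIntegral.integral_const_mul, intervalIntegral.integral_const_mul] at e1 e2
      have e6 : 2 / c * (∫ r in (0 : ℝ)..t, G r) ≤ 2 / c * L :=
        mul_le_mul_of_nonneg_left (by linarith) h2c.le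
      have e7 : 0 ≤ 2 / c * ∫ r in (0 : ℝ)..s, G r := mul_nonneg h2c.le e5
      constructor <;> linarith
    intro s hs t ht
    rcases le_total s t with h | h
    · exact (hmono s t hs.1 h ht.2).1
    · exact (hmono t s ht.1 h hs.2).2
  have hne : (Icc (0 : ℝ) T).Nonempty := ⟨0, le_rfl, hT⟩
  obtain ⟨ta, hta, hmax⟩ := isCompact_Icc.exists_isMaxOn hne c0
  obtain ⟨tb, htb, hmin⟩ := isCompact_Icc.exists_isMinOn hne c0
  have hab := hz tb htb ta hta
  refine ⟨fun _ => -(q ta 0 + q tb 0) / 2, fun t ht i => ?_⟩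
  have h1 : q t 0 ≤ q ta 0 := hmax ht
  have h2 : q tb 0 ≤ q t 0 := hmin ht
  have h3 : 2 / c * L = 2 * (L / c) := by ring
  rw [hLs]
  have h4 : kb i ⬝ᵥ (q t + fun _ => -(q ta 0 + q tb 0) / 2) =
      (if i then 1 else -1) * (q t 0 + -(q ta 0 + q tb 0) / 2) := by
    simp [kb, dotProduct]
  rw [h4]
  cases i
  · simp only [Bool.false_eq_true, if_false]
    linarith
  · simp only [if_true]
    linarith

end Pool.Agent.Y761.Coi
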